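import Pool.Agent.H143R3.MT.Stmts

set_option autoImplicit false

/-! Task E2 of project H143-MT. -/

namespace Pool.Agent.H224R3.MT

open MeasureTheory ProbabilityTheory Filter Topology Pool.Agent.H143R3.MT
open scoped ENNReal NNReal

universe u

lemma tsum_sk (s : ℝ≥0) : ∑' k, sk s k = 1 := by
  have : IsProbabilityMeasure (skellam s) := by
    unfold skellam
    exact Measure.isProbabilityMeasure_map (measurable_of_countable _).aemeasurable
  have h := lintegral_countable' (μ := skellam s) (fun _ : ℤ => (1 : ℝ≥0∞))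
  simp only [one_mul, lintegral_const, measure_univ] at h
  exact h.symm

lemma EX_const_mul (p : ℤ → ℝ≥0∞) (c : ℝ≥0∞) (n : ℕ) : ∀ (x : ℤ) (f : List ℤ → ℝ≥0∞),
    EX p n x (fun g => c * f g) = c * EX p n x f := by
  induction n with
  | zero => intro x f; rfl
  | succ n ih =>
    intro x f
    show ∑' x' : ℤ, p (x' - x) * EX p n x' (fun l => c * f (x' :: l)) =
      c * ∑' x' : ℤ, p (x' - x) * EX p n x' (fun l => f (x' :: l))
    rw [← ENNReal.tsum_mul_left]
    congr 1
    funext x'
    rw [ih x' (fun l => f (x' :: l))]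
    ring

open Classical in
/-- indicator of avoiding -/
noncomputable def ind (y : ℤ) (g l : List ℤ) : ℝ≥0∞ :=
  if List.Forall₂ (fun a b => y + a ≠ b) g l then 1 else 0

lemma ind_nil (y : ℤ) : ind y [] [] = 1 := by
  unfold ind
  rw [if_pos List.Forall₂.nil]

lemma ind_cons (y a b : ℤ) (g l : List ℤ) :
    ind y (a :: g) (b :: l) = (if y + a = b then 0 else 1) * ind y g l := by
  unfold ind
  by_cases h : y + a = b
  · rw [if_neg, if_pos h, zero_mul]
    intro h2
    exact (List.forall₂_cons.1 h2).1 h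
  · rw [if_neg h, one_mul]
    congr 1
    rw [List.forall₂_cons]
    exact propext ⟨fun h2 => h2.2, fun h2 => ⟨h, h2⟩⟩

lemma EX_ind (q : ℤ → ℝ≥0∞) (hq : ∑' k, q k = 1) (y : ℤ) (l : List ℤ) : ∀ (z x : ℤ),
    (if y + z = x then 0 else 1) * EX q l.length z (fun g => ind y g l) =
      av q (x :: l) (fun _ => 1) (y + z) := by
  induction l with
  | nil =>
    intro z x
    show (if y + z = x then 0 else 1) * ind y [] [] =
      if y + z = x then 0 else ∑' k, q k * 1
    rw [ind_nil]
    simp only [mul_one, hq]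
  | cons x1 l ih =>
    intro z x
    have h1 : EX q (x1 :: l).length z (fun g => ind y g (x1 :: l)) =
        ∑' x' : ℤ, q (x' - z) * av q (x1 :: l) (fun _ => 1) (y + x') := by
      show ∑' x' : ℤ, q (x' - z) * EX q l.length x' (fun g => ind y (x' :: g) (x1 :: l)) = _
      congr 1
      funext x'
      have h3 : EX q l.length x' (fun g => ind y (x' :: g) (x1 :: l)) =
          (if y + x' = x1 then 0 else 1) * EX q l.length x' (fun g => ind y g l) := by
        rw [← EX_const_mul]
        congr 1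
        funext g
        exact ind_cons y x' x1 g l
      rw [← ih x' x1, h3]
    have h2 : ∑' x' : ℤ, q (x' - z) * av q (x1 :: l) (fun _ => 1) (y + x') =
        conv q (av q (x1 :: l) (fun _ => 1)) (y + z) := by
      unfold conv
      rw [← (Equiv.addRight z).tsum_eq]
      congr 1
      funext k
      show q (k + z - z) * av q (x1 :: l) (fun _ => 1) (y + (k + z)) = _
      rw [add_sub_cancel_right, show y + (k + z) = y + z + k by ring]
    rw [h1, h2]
    show _ = if y + z = x then 0 else conv q (av q (x1 :: l) (fun _ => 1)) (y + z)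
    split_ifs <;> simp

/-- the set of paths which avoid `l` -/
def W (h : ℝ≥0) (l : List ℤ) (y : ℤ) : Set (ℝ≥0 → ℤ) :=
  {w | ∀ (i : ℕ) (hi : i < l.length), y + w (i * h) ≠ l[i]}

lemma W_meas (h : ℝ≥0) (l : List ℤ) (y : ℤ) : MeasurableSet (W h l y) := by
  have : W h l y = ⋂ (i : ℕ), ⋂ (hi : i < l.length),
      (fun w : ℝ≥0 → ℤ => w (i * h)) ⁻¹' {z | y + z ≠ l[i]} := by
    ext w
    simp only [W, Set.mem_iInter, Set.mem_preimage]
    exact Iff.rfl
  rw [this]
  refine MeasurableSet.iInter fun i => MeasurableSet.iInter fun hi => ?_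
  exact (measurable_pi_apply _) (MeasurableSet.of_discrete)

lemma prob_avoid (hE1 : TaskE1.{u}) {Ω : Type u} [MeasurableSpace Ω] (P : Measure Ω)
    [IsProbabilityMeasure P] (ρ : ℝ≥0) (X : ℝ≥0 → Ω → ℤ) (hX : IsWalk P ρ X) (h : ℝ≥0)
    (l : List ℤ) (y : ℤ) :
    P ((fun ω s => X s ω) ⁻¹' W h l y) = av (sk (ρ * h)) l (fun _ => 1) y := by
  have hmX : Measurable (fun ω s => X s ω) := measurable_pi_lambda _ fun s => hX.meas s
  cases l with
  | nil =>
    have : (fun ω s => X s ω) ⁻¹' W h [] y = Set.univ := by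
      ext ω
      simp only [Set.mem_preimage, Set.mem_univ, iff_true]
      intro i hi
      exact absurd hi (Nat.not_lt_zero _)
    rw [this, measure_univ]
    rfl
  | cons x l =>
    have hS := hmX (W_meas h (x :: l) y)
    rw [← lintegral_indicator_one hS]
    have h1 : (((fun ω s => X s ω) ⁻¹' W h (x :: l) y).indicator (1 : Ω → ℝ≥0∞)) =ᵐ[P]
        fun ω => (if y + 0 = x then 0 else 1) * ind y (gl X h l.length ω) l := by
      filter_upwards [hX.zero] with ω hω
      have h2 : ω ∈ ((fun ω s => X s ω) ⁻¹' W h (x :: l) y) ↔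
          (y + 0 ≠ x ∧ List.Forall₂ (fun a b => y + a ≠ b) (gl X h l.length ω) l) := by
        have hlen : (gl X h l.length ω).length = l.length := by
          unfold gl; exact List.length_ofFn
        constructor
        · intro hh
          refine ⟨?_, ?_⟩
          · have := hh 0 (by simp)
            simp only [Nat.cast_zero, zero_mul, hω, List.getElem_cons_zero] at this
            exact this
          · rw [List.forall₂_iff_get]
            refine ⟨hlen, fun i h1 h2 => ?_⟩
            have := hh (i + 1) (by simp [List.length_cons]; exact h2)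
            simp only [List.getElem_cons_succ] at this
            simpa [gl] using this
        · rintro ⟨h3, h4⟩ i hi
          rw [List.forall₂_iff_get] at h4
          cases i with
          | zero =>
            simp only [Nat.cast_zero, zero_mul, hω, List.getElem_cons_zero]
            exact h3
          | succ i =>
            have hi' : i < l.length := by
              simpa [List.length_cons] using hi
            have := h4.2 i (by rw [hlen]; exact hi') hi'
            simp only [List.getElem_cons_succ]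
            simpa [gl] using this
      by_cases hm : ω ∈ ((fun ω s => X s ω) ⁻¹' W h (x :: l) y)
      · rw [Set.indicator_of_mem hm]
        have h3 := h2.1 hm
        rw [if_neg h3.1, one_mul]
        unfold ind
        rw [if_pos h3.2]
        rfl
      · rw [Set.indicator_of_notMem hm]
        by_cases h3 : y + 0 = x
        · rw [if_pos h3, zero_mul]
        · rw [if_neg h3, one_mul]
          unfold ind
          rw [if_neg]
          intro h4
          exact hm (h2.2 ⟨h3, h4⟩)
    rw [lintegral_congr_ae h1]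
    have h5 := hE1 Ω P ρ X hX h l.length
      (fun g => (if y + 0 = x then 0 else 1) * ind y g l)
    rw [h5, EX_const_mul, EX_ind _ (tsum_sk _), add_zero]

lemma poisson_pow (ν : ℝ≥0) (a : ℝ≥0∞) (ha : a ≤ 1) :
    ∫⁻ n, a ^ n ∂(poissonMeasure ν) = ENNReal.ofReal (Real.exp (-(ν * (1 - a).toReal))) := by
  have hane : a ≠ ∞ := ne_top_of_le_ne_top ENNReal.one_ne_top ha
  set r := a.toReal with hr
  have hr0 : 0 ≤ r := ENNReal.toReal_nonneg
  have har : a = ENNReal.ofReal r := (ENNReal.ofReal_toReal hane).symm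
  have h1r : (1 - a).toReal = 1 - r := by
    rw [ENNReal.toReal_sub_of_le ha ENNReal.one_ne_top, ENNReal.toReal_one]
  rw [lintegral_countable']
  have h1 : ∀ n : ℕ, a ^ n * (poissonMeasure ν) {n} =
      ENNReal.ofReal (Real.exp (-ν) * ((ν * r) ^ n / (n.factorial : ℝ))) := by
    intro n
    rw [poissonMeasure_singleton, har, ← ENNReal.ofReal_pow hr0, ← ENNReal.ofReal_mul (by positivity)]
    congr 1
    rw [mul_pow]
    ring
  simp only [h1]
  have hsum : HasSum (fun n : ℕ => Real.exp (-ν) * ((ν * r) ^ n / (n.factorial : ℝ)))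
      (Real.exp (-ν) * Real.exp (ν * r)) := by
    apply HasSum.mul_left
    have := NormedSpace.expSeries_div_hasSum_exp (𝔸 := ℝ) ((ν : ℝ) * r)
    rw [← Real.exp_eq_exp_ℝ] at this
    exact this
  rw [← ENNReal.ofReal_tsum_of_nonneg (fun n => by positivity) hsum.summable, hsum.tsum_eq,
    ← Real.exp_add, h1r]
  congr 2
  ring

/-! ### finitely many starting points -/

/-- the particles started in `S` avoid `l` -/
def Ev (h : ℝ≥0) (l : List ℤ) (S : Finset ℤ) : Set ((ℤ → ℕ) × (ℤ × ℕ → ℝ≥0 → ℤ)) :=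
  {p | ∀ y ∈ S, ∀ j < p.1 y, p.2 (y, j) ∈ W h l y}

lemma Ev_meas (h : ℝ≥0) (l : List ℤ) (S : Finset ℤ) : MeasurableSet (Ev h l S) := by
  have : Ev h l S = ⋂ y ∈ S, ⋂ j : ℕ,
      ((fun p : (ℤ → ℕ) × (ℤ × ℕ → ℝ≥0 → ℤ) => p.1 y) ⁻¹' {n | ¬ j < n} ∪
        (fun p : (ℤ → ℕ) × (ℤ × ℕ → ℝ≥0 → ℤ) => p.2 (y, j)) ⁻¹' W h l y) := by
    ext p
    simp only [Ev, Set.mem_iInter, Set.mem_union, Set.mem_preimage]
    constructor
    · intro hp y hy j
      by_cases hj : j < p.1 y
      · exact Or.inr (hp y hy j hj)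
      · exact Or.inl hj
    · intro hp y hy j hj
      rcases hp y hy j with h1 | h1
      · exact absurd hj h1
      · exact h1
  rw [this]
  refine Finset.measurableSet_biInter _ fun y _ => MeasurableSet.iInter fun j => ?_
  refine MeasurableSet.union ?_ ?_
  · exact ((measurable_pi_apply y).comp measurable_fst) MeasurableSet.of_discrete
  · exact ((measurable_pi_apply (y, j)).comp measurable_snd) (W_meas h l y)

lemma prob_fin (hE1 : TaskE1.{u}) {Ω : Type u} [MeasurableSpace Ω] (P : Measure Ω)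
    [IsProbabilityMeasure P] (κ ρ ν : ℝ≥0) (X : ℝ≥0 → Ω → ℤ) (N : ℤ → Ω → ℕ)
    (Y : ℤ → ℕ → ℝ≥0 → Ω → ℤ) (hT : TrapModel P κ ρ ν X N Y) (h : ℝ≥0) (l : List ℤ)
    (S : Finset ℤ) :
    P ((fun ω => ((fun (y : ℤ) => N y ω), (fun (i : ℤ × ℕ) (s : ℝ≥0) => Y i.1 i.2 s ω))) ⁻¹'
      Ev h l S) = ∏ y ∈ S, ENNReal.ofReal
        (Real.exp (-(ν * (1 - av (sk (ρ * h)) l (fun _ => 1) y).toReal))) := by
  have hmN : Measurable (fun ω => fun (y : ℤ) => N y ω) :=
    measurable_pi_lambda _ fun y => hT.number_meas y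
  have hmYi : ∀ i : ℤ × ℕ, Measurable (fun ω (s : ℝ≥0) => Y i.1 i.2 s ω) := fun i =>
    measurable_pi_lambda _ fun s => (hT.trap i.1 i.2).meas s
  have hmY : Measurable (fun ω => (fun (i : ℤ × ℕ) (s : ℝ≥0) => Y i.1 i.2 s ω)) :=
    measurable_pi_lambda _ fun i => hmYi i
  set a : ℤ → ℝ≥0∞ := fun y => av (sk (ρ * h)) l (fun _ => 1) y with ha
  have hav : ∀ i : ℤ × ℕ, P ((fun ω (s : ℝ≥0) => Y i.1 i.2 s ω) ⁻¹' W h l i.1) = a i.1 := fun i =>
    prob_avoid hE1 P ρ (Y i.1 i.2) (hT.trap i.1 i.2) h l i.1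
  have ha1 : ∀ y, a y ≤ 1 := fun y => by
    rw [← hav (y, 0)]
    exact prob_le_one
  have h1 := hT.indepNY.map_prod_eq_prod_map_map hmN.aemeasurable hmY.aemeasurable
  rw [← Measure.map_apply (hmN.prodMk hmY) (Ev_meas h l S), h1,
    Measure.prod_apply (Ev_meas h l S),
    lintegral_map (measurable_measure_prodMk_left (Ev_meas h l S)) hmN]
  have h2 : ∀ n : ℤ → ℕ, (P.map (fun ω => (fun (i : ℤ × ℕ) (s : ℝ≥0) => Y i.1 i.2 s ω)))
      (Prod.mk n ⁻¹' Ev h l S) = ∏ y ∈ S, a y ^ n y := by
    intro n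
    rw [Measure.map_apply hmY (measurable_prodMk_left (Ev_meas h l S))]
    set T : Finset (ℤ × ℕ) :=
      (S.sigma fun y => Finset.range (n y)).map (Equiv.sigmaEquivProd ℤ ℕ).toEmbedding with hTd
    have h3 : (fun ω => (fun (i : ℤ × ℕ) (s : ℝ≥0) => Y i.1 i.2 s ω)) ⁻¹'
        (Prod.mk n ⁻¹' Ev h l S) =
        ⋂ i ∈ T, (fun ω (s : ℝ≥0) => Y i.1 i.2 s ω) ⁻¹' W h l i.1 := by
      ext ω
      simp only [Set.mem_preimage, Ev, Set.mem_iInter, hTd, Finset.mem_map, Finset.mem_sigma,
        Finset.mem_range]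
      constructor
      · rintro h4 i ⟨⟨y, j⟩, ⟨hy, hj⟩, rfl⟩
        exact h4 y hy j hj
      · intro h4 y hy j hj
        exact h4 (y, j) ⟨⟨y, j⟩, ⟨hy, hj⟩, rfl⟩
    rw [h3, hT.indepY.measure_inter_preimage_eq_mul T (sets := fun i => W h l i.1)
      (fun i _ => W_meas h l i.1)]
    rw [hTd, Finset.prod_map, Finset.prod_sigma]
    refine Finset.prod_congr rfl fun y _ => ?_
    rw [← Finset.card_range (n y)]
    rw [← Finset.prod_const]
    simp only [Finset.card_range]
    refine Finset.prod_congr rfl fun j _ => ?_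
    exact hav (y, j)
  simp only [h2]
  have h5 := lintegral_prod_eq_prod_lintegral_of_indepFun (μ := P) S
    (fun y ω => a y ^ (N y ω)) (hT.indepN.comp (fun y n => a y ^ n)
      (fun y => measurable_of_countable _))
    (fun y => (measurable_of_countable (fun n : ℕ => a y ^ n)).comp (hT.number_meas y))
  rw [h5]
  refine Finset.prod_congr rfl fun y _ => ?_
  rw [← poisson_pow ν (a y) (ha1 y), ← hT.number y,
    lintegral_map (measurable_of_countable _) (hT.number_meas y)]

/-! ### the expected number of hits is finite -/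

lemma Qh_le (q : ℤ → ℝ≥0∞) (hq : ∑' k, q k = 1) (l : List ℤ) : Qh q l ≤ l.length := by
  induction l with
  | nil =>
    show ∑' y : ℤ, ((1 : ℝ≥0∞) - 1) ≤ _
    simp
  | cons x l ih =>
    have h1 : ∀ z : ℤ, 1 - av q (x :: l) (fun _ => 1) z ≤
        (if z = x then 1 else 0) + ∑' k, q k * (1 - av q l (fun _ => 1) (z + k)) := by
      intro z
      show 1 - (if z = x then 0 else conv q (av q l (fun _ => 1)) z) ≤ _
      rw [tsub_le_iff_right]
      split_ifs with hz
      · exact le_add_right (le_add_right le_rfl)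
      · rw [zero_add]
        unfold conv
        rw [← ENNReal.tsum_add, ← hq]
        refine ENNReal.tsum_le_tsum fun k => ?_
        rw [← mul_add]
        calc q k = q k * 1 := (mul_one _).symm
          _ ≤ _ := by gcongr; rw [hq]; exact le_tsub_add
    calc Qh q (x :: l) ≤ ∑' z : ℤ, ((if z = x then 1 else 0) +
          ∑' k, q k * (1 - av q l (fun _ => 1) (z + k))) := ENNReal.tsum_le_tsum h1
      _ = 1 + ∑' z : ℤ, ∑' k, q k * (1 - av q l (fun _ => 1) (z + k)) := by
          rw [ENNReal.tsum_add, tsum_ite_eq]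
      _ = 1 + ∑' k, ∑' z : ℤ, q k * (1 - av q l (fun _ => 1) (z + k)) := by
          rw [ENNReal.tsum_comm]
      _ = 1 + ∑' k, q k * Qh q l := by
          congr 2
          funext k
          rw [ENNReal.tsum_mul_left]
          congr 1
          exact (Equiv.addRight k).tsum_eq (fun z => 1 - av q l (fun _ => 1) z)
      _ = 1 + Qh q l := by rw [ENNReal.tsum_mul_right, hq, one_mul]
      _ ≤ 1 + l.length := by gcongr
      _ = ((x :: l).length : ℕ) := by
          rw [List.length_cons, add_comm]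
          push_cast
          rfl

theorem taskE2 : TaskE2.{u} := by
  intro hE1 Ω _ P _ κ ρ ν X N Y hT h l
  set q := sk (ρ * h) with hq
  set r : ℤ → ℝ≥0∞ := fun y => 1 - av q l (fun _ => 1) y with hr
  set F : Ω → (ℤ → ℕ) × (ℤ × ℕ → ℝ≥0 → ℤ) :=
    fun ω => ((fun (y : ℤ) => N y ω), (fun (i : ℤ × ℕ) (s : ℝ≥0) => Y i.1 i.2 s ω)) with hF
  have hmF : Measurable F := by
    refine Measurable.prodMk (measurable_pi_lambda _ fun y => hT.number_meas y)
      (measurable_pi_lambda _ fun i => measurable_pi_lambda _ fun s => (hT.trap i.1 i.2).meas s)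
  have hset : {ω | ∀ y : ℤ, ∀ j < N y ω, ∀ (i : ℕ) (hi : i < l.length),
        y + Y y j (i * h) ω ≠ l[i]} = ⋂ S : Finset ℤ, F ⁻¹' Ev h l S := by
    ext ω
    simp only [Set.mem_iInter, Set.mem_preimage]
    constructor
    · intro h1 S y _ j hj i hi
      exact h1 y j hj i hi
    · intro h1 y j hj i hi
      exact h1 {y} y (Finset.mem_singleton_self y) j hj i hi
  have hfin : ∑' y, r y ≠ ∞ :=
    ne_top_of_le_ne_top (ENNReal.natCast_ne_top _) (Qh_le q (tsum_sk _) l)
  have hsum : HasSum (fun y => (r y).toReal) (Qh q l).toReal := by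
    have h0 := ENNReal.hasSum_toReal hfin
    rwa [← ENNReal.tsum_toReal_eq (fun y => ne_top_of_le_ne_top ENNReal.one_ne_top
      tsub_le_self)] at h0
  have hlim1 : Tendsto (fun S : Finset ℤ => P (F ⁻¹' Ev h l S)) atTop
      (𝓝 (P (⋂ S : Finset ℤ, F ⁻¹' Ev h l S))) := by
    refine tendsto_measure_iInter_atTop (fun S => (hmF (Ev_meas h l S)).nullMeasurableSet) ?_
      ⟨∅, measure_ne_top _ _⟩
    intro S S' hSS ω hω y hy j hj
    exact hω y (hSS hy) j hj
  have hlim2 : Tendsto (fun S : Finset ℤ => P (F ⁻¹' Ev h l S)) atTop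
      (𝓝 (surv ν q l)) := by
    have h1 : ∀ S : Finset ℤ, P (F ⁻¹' Ev h l S) =
        ENNReal.ofReal (Real.exp (-(ν * ∑ y ∈ S, (r y).toReal))) := by
      intro S
      rw [prob_fin hE1 P κ ρ ν X N Y hT h l S,
        ← ENNReal.ofReal_prod_of_nonneg (fun y _ => (Real.exp_pos _).le), ← Real.exp_sum,
        Finset.sum_neg_distrib, ← Finset.mul_sum]
    simp only [h1]
    unfold surv
    exact ENNReal.tendsto_ofReal ((Real.continuous_exp.tendsto _).comp
      ((Tendsto.const_mul (ν : ℝ) hsum).neg))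
  rw [hset]
  exact tendsto_nhds_unique hlim1 hlim2

end Pool.Agent.H224R3.MT

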